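import Pool.Agent.N305.GL.Final
import Pool.Agent.N305.GL.BR
import Pool.Agent.N305.GL.WT
import Pool.Agent.N305.GL.ST
import Pool.Agent.N305.GL.Muck
import Pool.Agent.N305.GL.Ape
import Pool.Agent.N305.GL.Sum
import Pool.Agent.N305.GL.Comb
import Pool.Agent.N305.GL.P2
import Pool.Agent.N305.GL.Area
import Pool.Agent.N305.GL.Grad
import Pool.Agent.N305.GL.Hol
import Pool.Agent.N305.GL.Green
import Pool.Agent.N305.GL.Alg
import Pool.Agent.N305.GL.CS
import Pool.Agent.N305.GL.Bel
import Pool.Agent.N305.GL.Trunc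
import Pool.Agent.N305.GL.Rdf
import Pool.Agent.N564.GL.A2W
import Pool.Agent.N305.GL.Hold
import Pool.Agent.N305.GL.Ext
import Pool.Agent.N305.GL.Pconv
import Pool.Agent.N305.GL.Fat
import Pool.Agent.N305.GL.Ng
import Pool.Agent.N305.GL.Na
import Pool.Agent.N305.GL.Nb

/-!
# The weights for the weighted `g_λ^*` inequality

Let `1 < λ ≤ 2` and `2/λ < p < 2`. The inequality
`∫ (g_λ^*)^p U ≤ C ∫ |f|^p U` holds if and only if `U ∈ A_p ∩ B_{λp/2}`.

Proof of the sufficiency.
* `B_r` improves itself: `∫_{I(z,ay)} U ≤ K a^D ∫_{I(z,y)} U` with some `D < r` (`BR`).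
* For `0 < q < 1` and a doubling weight of order `D` the norm in `L^q(U)` of the integral over the
  cone of aperture `2^k` is at most `C 2^{kD}` times the one for aperture `1` (`Ape`), whence
  `∫ (g_λ^*)^p U ≤ C ∫ (area integral)^p U` if `D < λp/2` (`Sum`, `Comb`).
* For `W ∈ A_2` the area integral is bounded on `L²(W)`: with the Poisson integrals `x`, `v`, `w` of
  `f`, `1/W`, `W` the function `x²/u`, `u = 2v - 1/(v w²)`, is subharmonic with
  `w |∇x|² ≤ 26 Q³ Δ(x²/u)` and `x²/u ≤ P[f²W]` (`Alg`, `CS`, `Bel`, `Green`, `Trunc`).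
* Extrapolation to `L^p(U)`, `U ∈ A_p`, by the algorithm of Rubio de Francia (`Rdf`, `A2W`, `Hold`,
  `Ext`) and Lerner's proof of Muckenhoupt's theorem (`WT`, `ST`, `Muck`).
* Fatou's lemma for general `f` (`Pconv`, `Fat`).
The necessity (`Ng`, `Na`, `Nb`) is by testing on functions supported in an interval.
-/

set_option autoImplicit false

open MeasureTheory Set Filter Topology
open scoped ENNReal NNReal

namespace Pool.Agent.Results.MP_842e08_an.WeightsGStar

open Pool.Agent.N305.GL

/-- **The weights for the `g_λ^*` inequality.** `Po f` is the Poisson integral of the real function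
`f`, `gStar lam f` is `g_λ^*`, `IsA p U` and `IsB r U` are the conditions `A_p` and `B_r`. The
inequality for bounded functions of bounded support (`StarB`) and, if `U` does not vanish almost
everywhere, the inequality for all measurable `f` with `∫ |f|^p U < ∞` (`Star`, including the
convergence of the Poisson integral) are both equivalent to `U ∈ A_p ∩ B_{λp/2}`. -/
theorem result (lam p : ℝ) (hlam : 1 < lam) (hlam2 : lam ≤ 2) (hp : 2 / lam < p) (hp2 : p < 2)
    (U : ℝ → ℝ) (hU : IsWeight U) :
    (StarB lam p U ↔ IsA p U ∧ IsB (lam * p / 2) U) ∧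
    (¬ (U =ᵐ[volume] 0) → (Star lam p U ↔ IsA p U ∧ IsB (lam * p / 2) U)) := by
  have hST := st wt
  have hMUCK := muck wt hST
  have hMEAS := meas grad hol
  have hBEL := bel grad hol hMEAS green alg cs
  have hA2 := trunc (p2 hMUCK) area hMEAS hBEL
  have hEXT := ext wt hMUCK hMEAS (rdf wt) Pool.Agent.N564.GL.a2w hold hA2
  exact final br (comb (ape wt) sum) hMEAS hEXT (pconv hMUCK) (fat grad hol hMEAS)
    (na (ng grad)) (nb (ng grad)) lam p hlam hlam2 hp hp2 U hU

end Pool.Agent.Results.MP_842e08_an.WeightsGStar
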